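import Pool.Agent.H145Z.Foc.B

set_option autoImplicit false

open Finset Filter Topology

namespace Pool.Agent.Results.MP_fa373d_co.ANotTight

/-- `x₀, y 0, …, y (r-2)` are `r` distinct vectors and in every coordinate at least `r - 2` of the
`y j` agree with the focus `x₀`. -/
def IsFocal (r : ℕ) {n : ℕ} (x₀ : Fin n → Bool) (y : Fin (r - 1) → Fin n → Bool) : Prop :=
  Function.Injective y ∧ (∀ j, y j ≠ x₀) ∧
    ∀ i, r - 2 ≤ (univ.filter fun j => y j i = x₀ i).card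

/-- no `r` members of `F` form a focal family -/
def FocalFree (r : ℕ) {n : ℕ} (F : Finset (Fin n → Bool)) : Prop :=
  ∀ x₀ ∈ F, ∀ y : Fin (r - 1) → Fin n → Bool, (∀ j, y j ∈ F) → ¬ IsFocal r x₀ y

/-- the largest cardinality of a focal-free subset of `{0,1}^n` -/
noncomputable def g (r n : ℕ) : ℕ :=
  sSup {m | ∃ F : Finset (Fin n → Bool), FocalFree r F ∧ F.card = m}

open Pool.Agent.H145Z.Foc in
lemma H_of {s n : ℕ} {F : Finset (Fin n → Bool)} (h : FocalFree (s + 1) F) : H s F := by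
  intro x hx T hT
  by_contra hne
  have h1 : ∀ j, ∃ y ∈ F, Agree (T j)ᶜ x y ∧ y ≠ x := fun j => by
    by_contra h2
    push Not at h2
    exact hne ⟨j, mem_uq.2 ⟨hx, h2⟩⟩
  choose y hy ha hn using h1
  have h2 : ∀ j i, y j i ≠ x i → i ∈ T j := fun j i hi => by
    by_contra h3
    exact hi (ha j i (mem_compl.2 h3)).symm
  have h3 : ∀ i j k, y j i ≠ x i → y k i ≠ x i → j = k := fun i j k hj hk => by
    by_contra h4
    exact disjoint_left.1 (hT j k h4) (h2 j i hj) (h2 k i hk)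
  refine h x hx y hy ⟨fun j k hjk => ?_, hn, fun i => ?_⟩
  · obtain ⟨i, hi⟩ := Function.ne_iff.1 (hn j)
    exact h3 i j k hi (by rw [← hjk]; exact hi)
  · have h4 : (univ.filter fun j => ¬ y j i = x i).card ≤ 1 :=
      card_le_one.2 fun j hj k hk => h3 i j k (mem_filter.1 hj).2 (mem_filter.1 hk).2
    have h5 := card_filter_add_card_filter_not (s := univ) fun j => y j i = x i
    rw [card_univ, Fintype.card_fin] at h5
    change s + 1 - 2 ≤ (univ.filter fun j : Fin s => y j i = x i).card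
    omega

theorem result (r : ℕ) (hr : 3 ≤ r) :
    Tendsto (fun n : ℕ => (g r n : ℝ) / (2 : ℝ) ^ (((r : ℝ) - 2) * n / ((r : ℝ) - 1)))
      atTop (𝓝 0) := by
  obtain ⟨s, rfl⟩ : ∃ s, r = s + 2 + 1 := ⟨r - 3, by omega⟩
  refine Metric.tendsto_atTop.2 fun ε hε => ?_
  obtain ⟨n₀, h⟩ := Pool.Agent.H145Z.Foc.main s (ε / 2) (by positivity)
  refine ⟨n₀, fun n hn => ?_⟩
  have h1 : g (s + 2 + 1) n ∈ {m | ∃ F : Finset (Fin n → Bool), FocalFree (s + 2 + 1) F ∧ F.card = m} :=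
    Nat.sSup_mem ⟨0, ∅, by simp [FocalFree], rfl⟩
      ⟨_, fun m ⟨F, _, hF⟩ => hF ▸ card_le_univ F⟩
  obtain ⟨F, hF, hc⟩ := h1
  have h2 := h n hn (Fin n) (Fintype.card_fin n) F (H_of hF)
  have h3 : (((s + 2 + 1 : ℕ) : ℝ) - 2) * n / (((s + 2 + 1 : ℕ) : ℝ) - 1) =
      ((s : ℝ) + 1) * n / (s + 2) := by
    push_cast; congr 1 <;> ring
  rw [Real.dist_eq, sub_zero, abs_of_nonneg (by positivity), h3, ← hc,
    div_lt_iff₀ (by positivity)]
  have h4 : (0 : ℝ) < 2 ^ (((s : ℝ) + 1) * n / (s + 2)) := by positivity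
  nlinarith

end Pool.Agent.Results.MP_fa373d_co.ANotTight
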